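import Pool.Agent.W702.Pave.Defs

set_option autoImplicit false

namespace Pool.Agent.W646.Pave.Frame

open Pool.Agent.W702.Pave Matrix

noncomputable section

variable {n M : ℕ}

/-- Gram matrix -/
def Gr (u : Fin M → EuclideanSpace ℂ (Fin n)) : Matrix (Fin M) (Fin M) ℂ :=
  Matrix.of fun i j => inner ℂ (u i) (u j)

theorem Gr_apply (u : Fin M → EuclideanSpace ℂ (Fin n)) (i j : Fin M) :
    Gr u i j = inner ℂ (u i) (u j) := rfl

theorem frame_op (u : Fin M → EuclideanSpace ℂ (Fin n))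
    (h : ∀ x : EuclideanSpace ℂ (Fin n), ∑ i, ‖(inner ℂ (u i) x : ℂ)‖ ^ 2 = 2 * ‖x‖ ^ 2)
    (x : EuclideanSpace ℂ (Fin n)) :
    ∑ k, (inner ℂ (u k) x : ℂ) • u k = (2:ℂ) • x := by
  set T : EuclideanSpace ℂ (Fin n) →ₗ[ℂ] EuclideanSpace ℂ (Fin n) :=
    (∑ k, ((innerSL ℂ (u k)).toLinearMap).smulRight (u k)) - (2:ℂ) • LinearMap.id with hT
  have hTx : ∀ x, T x = ∑ k, (inner ℂ (u k) x : ℂ) • u k - (2:ℂ) • x := by
    intro x
    rw [hT]
    simp
  have h0 : T = 0 := by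
    rw [← inner_map_self_eq_zero]
    intro x
    rw [hTx, inner_sub_left, sum_inner, inner_smul_left]
    have e1 : ∀ k, (inner ℂ ((inner ℂ (u k) x : ℂ) • u k) x : ℂ) =
        ((‖(inner ℂ (u k) x : ℂ)‖ ^ 2 : ℝ) : ℂ) := by
      intro k
      rw [inner_smul_left]
      rw [← Complex.normSq_eq_norm_sq, Complex.normSq_eq_conj_mul_self]
    rw [Finset.sum_congr rfl (fun k _ => e1 k)]
    rw [← Complex.ofReal_sum, h x, inner_self_eq_norm_sq_to_K]
    have h2 : (starRingEnd ℂ) 2 = 2 := map_ofNat _ 2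
    rw [h2]
    push_cast
    exact sub_self _
  have := hTx x
  rw [h0, LinearMap.zero_apply] at this
  exact (sub_eq_zero.mp this.symm)

theorem Gr_sq (u : Fin M → EuclideanSpace ℂ (Fin n))
    (h : ∀ x : EuclideanSpace ℂ (Fin n), ∑ i, ‖(inner ℂ (u i) x : ℂ)‖ ^ 2 = 2 * ‖x‖ ^ 2) :
    Gr u * Gr u = (2:ℂ) • Gr u := by
  ext i j
  rw [Matrix.mul_apply, Matrix.smul_apply, Gr_apply]
  have h1 : ∀ k, Gr u i k * Gr u k j = inner ℂ (u i) ((inner ℂ (u k) (u j) : ℂ) • u k) := by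
    intro k
    rw [inner_smul_right, Gr_apply, Gr_apply]
    ring
  rw [Finset.sum_congr rfl (fun k _ => h1 k), ← inner_sum, frame_op u h, inner_smul_right]
  rfl

theorem form (u : Fin M → EuclideanSpace ℂ (Fin n)) (ξ : Fin M → ℂ) :
    star ξ ⬝ᵥ (Gr u *ᵥ ξ) = inner ℂ (∑ i, ξ i • u i) (∑ i, ξ i • u i) := by
  rw [sum_inner]
  unfold dotProduct
  apply Finset.sum_congr rfl
  intro i _
  rw [inner_smul_left, inner_sum]
  unfold Matrix.mulVec dotProduct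
  rw [Pi.star_apply]
  congr 1
  apply Finset.sum_congr rfl
  intro j _
  rw [inner_smul_right]
  change inner ℂ (u i) (u j) * ξ j = ξ j * inner ℂ (u i) (u j)
  ring

theorem main : S_frame := by
  rintro ⟨θ, hθ, hp⟩
  refine ⟨min (2 * (1 - θ)) 2, 2, lt_min (by linarith) (by norm_num), min_le_right _ _, ?_⟩
  intro n M u hu h
  set Q : Matrix (Fin M) (Fin M) ℂ := 1 - (1 / 2 : ℂ) • Gr u with hQ
  have hGH : (Gr u).IsHermitian := by
    ext i j
    rw [Matrix.conjTranspose_apply, Gr_apply, Gr_apply]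
    exact inner_conj_symm _ _
  have hQH : Q.IsHermitian := by
    rw [hQ]
    unfold Matrix.IsHermitian
    rw [Matrix.conjTranspose_sub, Matrix.conjTranspose_one, Matrix.conjTranspose_smul, hGH.eq]
    congr 2
    simp
  have hQQ : Q * Q = Q := by
    rw [hQ, sub_mul, mul_sub, mul_sub, one_mul, one_mul, mul_one, Matrix.smul_mul, Matrix.mul_smul,
      Gr_sq u h, smul_smul, smul_smul]
    have : (1 / 2 : ℂ) * (1 / 2) * 2 = 1 / 2 := by norm_num
    rw [this]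
    abel
  have hQd : ∀ i, Q i i = 1 / 2 := by
    intro i
    rw [hQ, Matrix.sub_apply, Matrix.one_apply_eq, Matrix.smul_apply, Gr_apply,
      inner_self_eq_norm_sq_to_K, hu i]
    norm_num
  obtain ⟨σ, hσ⟩ := hp (Fin M) Q hQH hQQ hQd
  refine ⟨σ, ?_⟩
  intro j c
  set ξ : Fin M → ℂ := fun i => if σ i = j then c i else 0 with hξ
  have hs1 : ∑ i ∈ Finset.univ.filter (fun i => σ i = j), c i • u i = ∑ i, ξ i • u i := by
    rw [Finset.sum_filter]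
    apply Finset.sum_congr rfl
    intro i _
    rw [hξ]
    simp only
    split_ifs <;> simp
  have hs2 : ∑ i ∈ Finset.univ.filter (fun i => σ i = j), ‖c i‖ ^ 2 = ∑ i, ‖ξ i‖ ^ 2 := by
    rw [Finset.sum_filter]
    apply Finset.sum_congr rfl
    intro i _
    rw [hξ]
    simp only
    split_ifs <;> simp
  rw [hs1, hs2]
  have hform : star ξ ⬝ᵥ (Q *ᵥ ξ) = (∑ i, ((‖ξ i‖ ^ 2 : ℝ) : ℂ)) -
      (1 / 2) * ((‖∑ i, ξ i • u i‖ ^ 2 : ℝ) : ℂ) := by
    rw [hQ, Matrix.sub_mulVec, Matrix.one_mulVec, Matrix.smul_mulVec, dotProduct_sub,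
      dotProduct_smul, form, inner_self_eq_norm_sq_to_K]
    congr 1
    · unfold dotProduct
      apply Finset.sum_congr rfl
      intro i _
      rw [Pi.star_apply]
      rw [← Complex.normSq_eq_norm_sq, Complex.normSq_eq_conj_mul_self]
      rfl
    · rw [smul_eq_mul]
      push_cast
      rfl
  have hre : (star ξ ⬝ᵥ (Q *ᵥ ξ)).re = ∑ i, ‖ξ i‖ ^ 2 - (1 / 2) * ‖∑ i, ξ i • u i‖ ^ 2 := by
    rw [hform, ← Complex.ofReal_sum]
    have : ((∑ i, ‖ξ i‖ ^ 2 : ℝ) : ℂ) - (1 / 2) * ((‖∑ i, ξ i • u i‖ ^ 2 : ℝ) : ℂ)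
        = ((∑ i, ‖ξ i‖ ^ 2 - (1 / 2) * ‖∑ i, ξ i • u i‖ ^ 2 : ℝ) : ℂ) := by
      push_cast; ring
    rw [this, Complex.ofReal_re]
  have hpos : 0 ≤ (star ξ ⬝ᵥ (Q *ᵥ ξ)).re := by
    have h1 : star ξ ⬝ᵥ (Q *ᵥ ξ) = star (Q *ᵥ ξ) ⬝ᵥ (Q *ᵥ ξ) := by
      conv_lhs => rw [← hQQ]
      rw [← Matrix.mulVec_mulVec, Matrix.dotProduct_mulVec]
      congr 1
      rw [Matrix.star_mulVec, hQH.eq]
    rw [h1]
    unfold dotProduct
    rw [Complex.re_sum]
    apply Finset.sum_nonneg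
    intro i _
    rw [Pi.star_apply]
    have : (star ((Q *ᵥ ξ) i) * (Q *ᵥ ξ) i) = ((Complex.normSq ((Q *ᵥ ξ) i) : ℝ) : ℂ) := by
      rw [Complex.normSq_eq_conj_mul_self]
      rfl
    rw [this, Complex.ofReal_re]
    exact Complex.normSq_nonneg _
  have hle := hσ j ξ (fun i hi => by rw [hξ]; simp only; rw [if_neg hi])
  have hnn : 0 ≤ ∑ i, ‖ξ i‖ ^ 2 := Finset.sum_nonneg (fun i _ => by positivity)
  rw [hre] at hpos hle
  constructor
  · have h2 : min (2 * (1 - θ)) 2 * ∑ i, ‖ξ i‖ ^ 2 ≤ (2 * (1 - θ)) * ∑ i, ‖ξ i‖ ^ 2 :=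
      mul_le_mul_of_nonneg_right (min_le_left _ _) hnn
    nlinarith
  · linarith

end

end Pool.Agent.W646.Pave.Frame
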