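import Pool.Agent.W702.Pave.Defs

set_option autoImplicit false

namespace Pool.Agent.W646.Pave.Cub

open Pool.Agent.W702.Pave

theorem disc_strict {R Q ε : ℝ} (hR : 0 ≤ R) (hε : ε ≠ 0) (h : 27 * Q ^ 2 ≤ 4 * R ^ 3) :
    27 * (Q + 4 * ε ^ 3) ^ 2 < 4 * (R + 6 * ε ^ 2) ^ 3 := by
  have hε2 : 0 < ε ^ 2 := by positivity
  have h1 : 216 * Q * ε ^ 3 ≤ 72 * R ^ 2 * ε ^ 2 + 432 * R * ε ^ 4 := by
    apply le_of_sq_le_sq _ (by positivity)
    have h2 : 46656 * Q ^ 2 * ε ^ 6 ≤ 6912 * R ^ 3 * ε ^ 6 := by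
      have : 0 ≤ ε ^ 6 := by positivity
      nlinarith
    have h3 : 0 ≤ R ^ 4 * ε ^ 4 := by positivity
    have h4 : 0 ≤ R ^ 2 * ε ^ 8 := by positivity
    have h5 : 0 ≤ R ^ 3 * ε ^ 6 := by positivity
    calc (216 * Q * ε ^ 3) ^ 2 = 46656 * Q ^ 2 * ε ^ 6 := by ring
      _ ≤ 6912 * R ^ 3 * ε ^ 6 := h2
      _ ≤ 5184 * (R ^ 4 * ε ^ 4) + 62208 * (R ^ 3 * ε ^ 6) + 186624 * (R ^ 2 * ε ^ 8) := by
          nlinarith
      _ = (72 * R ^ 2 * ε ^ 2 + 432 * R * ε ^ 4) ^ 2 := by ring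
  have h6 : 0 < ε ^ 6 := by positivity
  nlinarith

theorem three_roots {P Q : ℝ} (h : 4 * P ^ 3 + 27 * Q ^ 2 < 0) :
    ∃ r1 r2 r3 : ℝ, r1 < r2 ∧ r2 < r3 ∧ ∀ v : ℝ,
      v ^ 3 + P * v + Q = (v - r1) * (v - r2) * (v - r3) := by
  have hP : P < 0 := by
    by_contra hcon
    push Not at hcon
    have : 0 ≤ P ^ 3 := by positivity
    nlinarith [sq_nonneg Q]
  set t := Real.sqrt (-P / 3) with ht
  have ht2 : t ^ 2 = -P / 3 := Real.sq_sqrt (by linarith)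
  have ht0 : 0 < t := Real.sqrt_pos.mpr (by linarith)
  have hPt : P = -3 * t ^ 2 := by linarith
  have ht3 : 0 < t ^ 3 := by positivity
  have hQ : Q ^ 2 < (2 * t ^ 3) ^ 2 := by
    rw [hPt] at h
    nlinarith
  have hQ' := abs_lt_of_sq_lt_sq' hQ (by positivity)
  have hcont : ∀ a b : ℝ, ContinuousOn (fun v : ℝ => v ^ 3 + P * v + Q) (Set.Icc a b) := by
    intro a b
    fun_prop
  obtain ⟨r1, ⟨h1a, h1b⟩, h1⟩ : ∃ r ∈ Set.Ioo (-(2 * t)) (-t), r ^ 3 + P * r + Q = 0 := by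
    have := intermediate_value_Ioo (by linarith : -(2 * t) ≤ -t) (hcont _ _)
    have h0 : (0:ℝ) ∈ Set.Ioo ((-(2 * t)) ^ 3 + P * (-(2 * t)) + Q) ((-t) ^ 3 + P * (-t) + Q) := by
      constructor
      · rw [hPt]; nlinarith [hQ'.1, hQ'.2]
      · rw [hPt]; nlinarith [hQ'.1, hQ'.2]
    obtain ⟨r, hr, hr2⟩ := this h0
    exact ⟨r, hr, hr2⟩
  obtain ⟨r2, ⟨h2a, h2b⟩, h2⟩ : ∃ r ∈ Set.Ioo (-t) t, r ^ 3 + P * r + Q = 0 := by
    have := intermediate_value_Ioo' (by linarith : -t ≤ t) (hcont _ _)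
    have h0 : (0:ℝ) ∈ Set.Ioo (t ^ 3 + P * t + Q) ((-t) ^ 3 + P * (-t) + Q) := by
      constructor
      · rw [hPt]; nlinarith [hQ'.1, hQ'.2]
      · rw [hPt]; nlinarith [hQ'.1, hQ'.2]
    obtain ⟨r, hr, hr2⟩ := this h0
    exact ⟨r, hr, hr2⟩
  obtain ⟨r3, ⟨h3a, h3b⟩, h3⟩ : ∃ r ∈ Set.Ioo t (2 * t), r ^ 3 + P * r + Q = 0 := by
    have := intermediate_value_Ioo (by linarith : t ≤ 2 * t) (hcont _ _)
    have h0 : (0:ℝ) ∈ Set.Ioo (t ^ 3 + P * t + Q) ((2 * t) ^ 3 + P * (2 * t) + Q) := by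
      constructor
      · rw [hPt]; nlinarith [hQ'.1, hQ'.2]
      · rw [hPt]; nlinarith [hQ'.1, hQ'.2]
    obtain ⟨r, hr, hr2⟩ := this h0
    exact ⟨r, hr, hr2⟩
  refine ⟨r1, r2, r3, by linarith, by linarith, ?_⟩
  have e12 : r1 ^ 2 + r1 * r2 + r2 ^ 2 + P = 0 := by
    have hne : r1 - r2 ≠ 0 := by intro h; linarith
    have : (r1 - r2) * (r1 ^ 2 + r1 * r2 + r2 ^ 2 + P) = 0 := by linear_combination h1 - h2
    exact (mul_eq_zero.mp this).resolve_left hne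
  have e13 : r1 ^ 2 + r1 * r3 + r3 ^ 2 + P = 0 := by
    have hne : r1 - r3 ≠ 0 := by intro h; linarith
    have : (r1 - r3) * (r1 ^ 2 + r1 * r3 + r3 ^ 2 + P) = 0 := by linear_combination h1 - h3
    exact (mul_eq_zero.mp this).resolve_left hne
  have e0 : r1 + r2 + r3 = 0 := by
    have hne : r2 - r3 ≠ 0 := by intro h; linarith
    have : (r2 - r3) * (r1 + r2 + r3) = 0 := by linear_combination e12 - e13
    exact (mul_eq_zero.mp this).resolve_left hne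
  intro v
  have hr3 : r3 = -r1 - r2 := by linarith
  have hP' : P = -(r1 ^ 2 + r1 * r2 + r2 ^ 2) := by linarith
  have hQ'' : Q = -(r1 ^ 3) - P * r1 := by linarith
  rw [hQ'', hP', hr3]
  ring

theorem main : S_cub := by
  intro p0 p1 p2 p3 ε hp3 hε hu
  set a := p2 / (3 * p3) with ha
  set b := p1 / p3 with hb
  set c := p0 / p3 with hc
  have e2 : p2 = 3 * a * p3 := by rw [ha]; field_simp
  have e1 : p1 = b * p3 := by rw [hb]; field_simp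
  have e0 : p0 = c * p3 := by rw [hc]; field_simp
  set P := b - 3 * a ^ 2 with hP
  set Q := 2 * a ^ 3 - a * b + c with hQ
  have h1 : ∀ w : ℝ, 0 ≤ (-6 * P) * (w * w) + (-18 * Q) * w + 2 * P ^ 2 := by
    intro w
    have h2 := hu (w - a)
    rw [e0, e1, e2] at h2
    have h3 : 2 * (b * p3 + 2 * (3 * a * p3) * (w - a) + 3 * p3 * (w - a) ^ 2) ^ 2 -
      3 * (c * p3 + b * p3 * (w - a) + 3 * a * p3 * (w - a) ^ 2 + p3 * (w - a) ^ 3) *
        (2 * (3 * a * p3) + 6 * p3 * (w - a)) =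
        p3 ^ 2 * ((-6 * P) * (w * w) + (-18 * Q) * w + 2 * P ^ 2) := by
      rw [hP, hQ]; ring
    rw [h3] at h2
    exact nonneg_of_mul_nonneg_right h2 (by positivity)
  have h4 := discrim_le_zero h1
  unfold discrim at h4
  have h5 : 27 * Q ^ 2 ≤ 4 * (-P) ^ 3 := by nlinarith
  have hPn : 0 ≤ -P := by
    by_contra hcon
    push Not at hcon
    have h6 : (-P) ^ 3 < 0 := by
      have : 0 < P := by linarith
      have : 0 < P ^ 3 := by positivity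
      nlinarith
    nlinarith [sq_nonneg Q]
  have h7 := disc_strict hPn hε h5
  obtain ⟨r1, r2, r3, h12, h23, hr⟩ := three_roots (P := P - 6 * ε ^ 2) (Q := Q + 4 * ε ^ 3) (by
    nlinarith)
  refine ⟨a + 2 * ε - r1, a + 2 * ε - r2, a + 2 * ε - r3, ?_, ?_, ?_, ?_⟩
  · intro h; linarith
  · intro h; linarith
  · intro h; linarith
  · intro u
    have h8 := hr (u + a + 2 * ε)
    have h9 : (u + (a + 2 * ε - r1)) * (u + (a + 2 * ε - r2)) * (u + (a + 2 * ε - r3))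
        = (u + a + 2 * ε) ^ 3 + (P - 6 * ε ^ 2) * (u + a + 2 * ε) + (Q + 4 * ε ^ 3) := by
      rw [h8]; ring
    rw [h9, e0, e1, e2, hP, hQ]
    ring

end Pool.Agent.W646.Pave.Cub
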