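import Pool.Agent.W702.Pave.Defs

set_option autoImplicit false

namespace Pool.Agent.W646.Pave.Sos

open Pool.Agent.W702.Pave Polynomial

theorem nonneg_of_ne {R : ℝ[X]} {a : ℝ} (h : ∀ x, x ≠ a → 0 ≤ R.eval x) : ∀ x, 0 ≤ R.eval x := by
  intro x
  have h1 : closure ({a}ᶜ : Set ℝ) ⊆ {x | 0 ≤ R.eval x} := by
    apply closure_minimal
    · intro y hy
      exact h y hy
    · exact isClosed_le continuous_const R.continuous
  rw [(dense_compl_singleton a).closure_eq] at h1
  exact h1 (Set.mem_univ x)

theorem sos : ∀ (m : ℕ) (P : ℝ[X]), P.natDegree ≤ 2 * m → (∀ x, 0 ≤ P.eval x) →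
    ∃ A B : ℝ[X], A.natDegree ≤ m ∧ B.natDegree ≤ m ∧ P = A ^ 2 + B ^ 2 := by
  intro m
  induction m with
  | zero =>
    intro P hP hpos
    have h1 : P.natDegree = 0 := by omega
    obtain ⟨c, rfl⟩ := natDegree_eq_zero.mp h1
    have hc : 0 ≤ c := by simpa using hpos 0
    refine ⟨C (Real.sqrt c), 0, by simp, by simp, ?_⟩
    rw [← C_pow, Real.sq_sqrt hc]
    simp
  | succ m ih =>
    intro P hP hpos
    by_cases hd : P.natDegree ≤ 2 * m
    · obtain ⟨A, B, hA, hB, hAB⟩ := ih P hd hpos
      exact ⟨A, B, by omega, by omega, hAB⟩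
    · have hP0 : P ≠ 0 := by
        rintro rfl
        simp at hd
      have hdeg : (P.map (algebraMap ℝ ℂ)).degree ≠ 0 := by
        rw [degree_map]
        intro h
        rw [degree_eq_natDegree hP0] at h
        have : P.natDegree = 0 := by exact_mod_cast h
        omega
      obtain ⟨z, hz⟩ := IsAlgClosed.exists_root _ hdeg
      have hz' : aeval z P = 0 := by
        rw [IsRoot.def, eval_map_algebraMap] at hz
        exact hz
      by_cases him : z.im = 0
      · -- real root
        have hzr : z = ((z.re : ℝ) : ℂ) := by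
          apply Complex.ext
          · simp
          · simp [him]
        have hroot : P.eval z.re = 0 := by
          rw [hzr] at hz'
          have h2 := Polynomial.aeval_algebraMap_apply ℂ z.re P
          have h3 : (algebraMap ℝ ℂ) z.re = ((z.re : ℝ) : ℂ) := rfl
          rw [h3, hz'] at h2
          have h4 : ((P.eval z.re : ℝ) : ℂ) = 0 := by
            rw [← Polynomial.coe_aeval_eq_eval]
            exact h2.symm
          exact_mod_cast h4
        set a := z.re
        obtain ⟨Q, hQ⟩ := dvd_iff_isRoot.mpr hroot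
        -- derivative vanishes
        have hmin : IsLocalMin (fun x => P.eval x) a := by
          apply Filter.Eventually.of_forall
          intro x
          simp only
          rw [hroot]
          exact hpos x
        have hder : P.derivative.eval a = 0 := by
          have := hmin.deriv_eq_zero
          rw [Polynomial.deriv] at this
          exact this
        have hQa : Q.eval a = 0 := by
          rw [hQ, derivative_mul] at hder
          simpa using hder
        obtain ⟨R, hR⟩ := dvd_iff_isRoot.mpr hQa
        have hPR : P = (X - C a) ^ 2 * R := by rw [hQ, hR]; ring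
        have hR0 : R ≠ 0 := by
          rintro rfl
          rw [mul_zero] at hPR
          exact hP0 hPR
        have hnd : R.natDegree ≤ 2 * m := by
          have h5 : P.natDegree = 2 + R.natDegree := by
            rw [hPR, natDegree_mul (pow_ne_zero _ (X_sub_C_ne_zero a)) hR0, natDegree_pow,
              natDegree_X_sub_C]
          omega
        have hRpos : ∀ x, 0 ≤ R.eval x := by
          apply nonneg_of_ne (a := a)
          intro x hx
          have h6 := hpos x
          rw [hPR] at h6
          simp only [eval_mul, eval_pow, eval_sub, eval_X, eval_C] at h6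
          have h7 : 0 < (x - a) ^ 2 := by
            have : x - a ≠ 0 := sub_ne_zero.mpr hx
            positivity
          exact nonneg_of_mul_nonneg_right h6 h7
        obtain ⟨A, B, hA, hB, hAB⟩ := ih R hnd hRpos
        refine ⟨(X - C a) * A, (X - C a) * B, ?_, ?_, ?_⟩
        · refine le_trans natDegree_mul_le ?_
          rw [natDegree_X_sub_C]; omega
        · refine le_trans natDegree_mul_le ?_
          rw [natDegree_X_sub_C]; omega
        · rw [hPR, hAB]; ring
      · -- complex root
        obtain ⟨R, hR⟩ := Polynomial.quadratic_dvd_of_aeval_eq_zero_im_ne_zero P hz' him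
        have hnorm : ‖z‖ ^ 2 = z.re ^ 2 + z.im ^ 2 := by
          rw [← Complex.normSq_eq_norm_sq, Complex.normSq_apply]; ring
        have hquad : (X ^ 2 - C (2 * z.re) * X + C (‖z‖ ^ 2) : ℝ[X])
            = (X - C z.re) ^ 2 + C z.im ^ 2 := by
          rw [hnorm]
          simp only [C_mul, C_add, C_pow]
          have : (C (2:ℝ) : ℝ[X]) = 2 := rfl
          rw [this]
          ring
        have hquad0 : (X ^ 2 - C (2 * z.re) * X + C (‖z‖ ^ 2) : ℝ[X]) ≠ 0 := by
          intro h
          rw [h, zero_mul] at hR
          exact hP0 hR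
        have hquadd : (X ^ 2 - C (2 * z.re) * X + C (‖z‖ ^ 2) : ℝ[X]).natDegree = 2 := by
          have : (X ^ 2 - C (2 * z.re) * X + C (‖z‖ ^ 2) : ℝ[X])
              = C 1 * X ^ 2 + C (-(2 * z.re)) * X + C (‖z‖ ^ 2) := by
            rw [C_neg, C_1]; ring
          rw [this]
          exact natDegree_quadratic one_ne_zero
        have hR0 : R ≠ 0 := by
          rintro rfl
          rw [mul_zero] at hR
          exact hP0 hR
        have hnd : R.natDegree ≤ 2 * m := by
          have h5 : P.natDegree = 2 + R.natDegree := by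
            conv_lhs => rw [hR]
            rw [natDegree_mul hquad0 hR0, hquadd]
          omega
        have hRpos : ∀ x, 0 ≤ R.eval x := by
          intro x
          have h6 := hpos x
          rw [hR, hquad] at h6
          simp only [eval_mul, eval_pow, eval_sub, eval_X, eval_C, eval_add] at h6
          have h7 : 0 < (x - z.re) ^ 2 + z.im ^ 2 := by positivity
          exact nonneg_of_mul_nonneg_right h6 h7
        obtain ⟨A, B, hA, hB, hAB⟩ := ih R hnd hRpos
        refine ⟨(X - C z.re) * A - C z.im * B, (X - C z.re) * B + C z.im * A, ?_, ?_, ?_⟩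
        · refine le_trans (natDegree_sub_le _ _) (max_le ?_ ?_)
          · refine le_trans natDegree_mul_le ?_
            rw [natDegree_X_sub_C]; omega
          · refine le_trans natDegree_mul_le ?_
            rw [natDegree_C]; omega
        · refine le_trans (natDegree_add_le _ _) (max_le ?_ ?_)
          · refine le_trans natDegree_mul_le ?_
            rw [natDegree_X_sub_C]; omega
          · refine le_trans natDegree_mul_le ?_
            rw [natDegree_C]; omega
        · rw [hR, hquad, hAB]; ring

theorem main : S_sos := by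
  intro n0 n1 n2 n3 n4 n5 n6 hpos
  set P : ℝ[X] := C n0 + C n1 * X + C n2 * X ^ 2 + C n3 * X ^ 3 + C n4 * X ^ 4 + C n5 * X ^ 5 +
    C n6 * X ^ 6 with hP
  have hPe : ∀ u, P.eval u =
      n0 + n1 * u + n2 * u ^ 2 + n3 * u ^ 3 + n4 * u ^ 4 + n5 * u ^ 5 + n6 * u ^ 6 := by
    intro u
    rw [hP]
    simp only [eval_add, eval_mul, eval_C, eval_X, eval_pow]
  have hPd : P.natDegree ≤ 2 * 3 := by
    rw [hP]
    compute_degree
  obtain ⟨A, B, hA, hB, hAB⟩ := sos 3 P hPd (fun x => by rw [hPe]; exact hpos x)
  have hAe : ∀ u, A.eval u = A.coeff 0 + A.coeff 1 * u + A.coeff 2 * u ^ 2 + A.coeff 3 * u ^ 3 := by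
    intro u
    rw [eval_eq_sum_range' (by omega : A.natDegree < 4)]
    simp [Finset.sum_range_succ]
  have hBe : ∀ u, B.eval u = B.coeff 0 + B.coeff 1 * u + B.coeff 2 * u ^ 2 + B.coeff 3 * u ^ 3 := by
    intro u
    rw [eval_eq_sum_range' (by omega : B.natDegree < 4)]
    simp [Finset.sum_range_succ]
  have key : ∀ u : ℝ, n0 + n1 * u + n2 * u ^ 2 + n3 * u ^ 3 + n4 * u ^ 4 + n5 * u ^ 5 + n6 * u ^ 6 =
      (A.coeff 0 + A.coeff 1 * u + A.coeff 2 * u ^ 2 + A.coeff 3 * u ^ 3) ^ 2 +
      (B.coeff 0 + B.coeff 1 * u + B.coeff 2 * u ^ 2 + B.coeff 3 * u ^ 3) ^ 2 := by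
    intro u
    rw [← hPe, ← hAe, ← hBe, hAB]
    simp only [eval_add, eval_pow]
  refine ⟨A.coeff 0, A.coeff 1, A.coeff 2, A.coeff 3, B.coeff 0, B.coeff 1, B.coeff 2, B.coeff 3,
    key, ?_, ?_⟩
  · linear_combination (1 / 720) * (key 3 - 6 * key 2 + 15 * key 1 - 20 * key 0 + 15 * key (-1)
      - 6 * key (-2) + key (-3))
  · linear_combination (1 / 48) * (key 1 - key (-1)) - (1 / 60) * (key 2 - key (-2))
      + (1 / 240) * (key 3 - key (-3))

end Pool.Agent.W646.Pave.Sos
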